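import Pool.Agent.W97.KE.Stm

/-!
# Project KE: the `7`-division polynomial is irreducible

Reduction modulo `3` and the Rabin test. `irr_of_mod` is taken from `Pool.Agent.W130.HL.Irr`.
-/

set_option autoImplicit false

namespace Pool.Agent.W509.KE

open Polynomial Pool.Agent.W97.KE

/-! ### The certificate -/

def HH : List (List ℤ) := [
  [0, 1],
  [0, 0, 0, 1],
  [0, 0, 0, 0, 0, 0, 0, 0, 0, 1],
  [1, -1, -1, 0, 1, -1, 0, 1, 1, 0, 0, -1, 0, -1, 1, -1, 1, 1, 0, 1, 0, 1, -1],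
  [-1, 0, 1, -1, -1, 1, 1, 0, 0, 1, 1, 1, -1, 0, 0, 1, 0, -1, 1, -1, 1, 0, 1, -1],
  [-1, -1, 0, 1, 1, -1, 0, 0, 0, 1, -1, 0, -1, -1, 0, -1, 1, -1, 0, -1, 0, 0, 1],
  [0, -1, -1, 1, 1, -1, -1, 0, 0, 1, -1, -1, 1, 0, -1, -1, -1, -1, -1, 1, 0, -1, 0, 1],
  [1, 0, -1, -1, -1, 0, -1, -1, -1, 0, 1, 0, -1, -1, 0, 0, 1, 1, 0, -1, 0, -1, -1],
  [1, 1, 0, 1, -1, 0, 0, 0, 0, 1, -1, 0, -1, -1, 1, 0, 0, 1, 1, -1, 0, 0, 1, 1],
  [0, 0, 1, -1, -1, -1, -1, -1, 1, 0, -1, -1, 0, 1, 0, 1, 0, -1, 0, -1, 1, 0, 1],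
  [0, 1, -1, -1, -1, -1, 0, -1, 0, 0, 1, 1, 1, 1, -1, -1, 1, 0, 0, 1, 1, -1, 1, 1],
  [1, 1, 0, 0, 0, 0, -1, 0, 0, 0, -1, 1, -1, 0, -1, 0, 0, -1, -1, 0, 1, 0, 1, 1],
  [1, -1, 0, 1, -1, -1, 0, 0, 0, -1, 0, 1, -1, 1, 1, 0, 0, 0, 1, -1, -1, 0, 1, 1],
  [0, 0, 1, 0, -1, -1, -1, 0, 1, 0, 1, 1, 0, -1, -1, 1, 0, 1, 0, -1, 1, 1],
  [0, -1, -1, 1, 1, 0, 1, 1, 1, 1, 1, 1, 0, -1, 0, 0, -1, 0, -1, -1, -1, 0, 1, 1],
  [-1, 0, 1, 0, 1, 1, 0, 1, -1, 0, -1, 0, 1, 0, 0, 0, 0, 0, 1, 1, -1, 0, 0, 1],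
  [-1, 1, -1, -1, -1, 1, 0, 0, 1, 0, -1, 1, 1, -1, 1, -1, 1, 0, -1, 1, -1, 0, -1],
  [1, 1, 1, 0, -1, 0, 0, 0, 0, -1, -1, 1, 1, 1, 0, 0, 1, 0, 0, 0, 0, 1, 1, 1],
  [1, -1, 1, 1, 1, -1, 1, 0, 0, 1, 0, 1, -1, 1, -1, 1, 0, 0, 0, 0, -1],
  [0, 0, -1, 0, -1, -1, 0, 0, 0, 1, 0, -1, 0, 1, -1, 1, -1, -1, -1, 1, 1, -1, -1],
  [1, -1, 0, 0, 1, 1, 1, 0, 1, 0, 1, 0, 1, 1, -1, 1, -1, -1, 0, -1, 1, 1, 1, -1],
  [1, -1, 1, -1, 0, -1, 0, 0, 0, 0, 0, 1, 1, 0, 0, 1, 1, 0, 1, -1, 0, 1, -1, 1],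
  [0, 0, 1, 1, 0, 1, 0, 0, -1, 0, 0, 1, -1, -1, 1, 1, 0, 0, 0, 0, 0, 0, -1],
  [-1, -1, -1, 1, 0, -1, 1, 0, 0, 0, -1, -1, 1, 1, -1, 0, 0, 0, 0, 1, 1, -1, -1, -1],
  [0, 1]]

def QQ : List (List ℤ) := [
  [],
  [],
  [1, -1, 1, 1],
  [1, 0, 0, 0, -1, 0, -1, -1, 1, -1, 1, 0, -1, 1, 1, 0, -1, 1, 0, 1, 1, 1, 0, 1, 0, 1, 1, -1, -1, -1, 0, -1, -1, -1, 0, 1, 1, 0, 1, 0, 1, -1, -1],
  [0, -1, 0, -1, 1, 0, -1, 1, 0, 1, 0, -1, -1, -1, 1, -1, -1, 1, 1, 1, 1, 1, 0, 1, 1, 0, 0, 1, -1, 1, 1, 0, 1, -1, -1, -1, -1, 0, 1, 1, 0, 1, 0, 1, -1, -1],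
  [1, -1, 1, 0, 0, 1, -1, 1, 1, 0, 1, 0, -1, 0, 0, 0, -1, -1, 1, 1, -1, -1, 0, -1, 1, 1, 1, 1, 0, -1, -1, 0, 0, 1, -1, -1, 0, -1, 0, 1, -1, 1, 1],
  [1, 0, 1, 0, 1, -1, 1, 1, 0, 1, 1, -1, -1, 1, -1, -1, -1, 0, 1, 1, 1, -1, -1, 1, 0, 1, 1, 1, 0, -1, 0, -1, 1, 1, 0, 1, 1, 0, 1, -1, -1, 0, 1, -1, 1, 1],
  [0, 1, 0, 0, -1, 0, 1, -1, 1, 1, 1, -1, 1, 0, 1, -1, 0, -1, 1, 1, 0, -1, 1, 0, 1, -1, -1, -1, 0, 0, 0, 0, -1, 0, -1, 1, -1, -1, -1, 1, 1, -1, -1],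
  [-1, 0, -1, 1, 0, -1, 0, -1, 1, 1, 1, 1, 1, -1, -1, -1, 1, -1, 0, 1, 1, 1, 0, 1, 1, 0, -1, 1, 1, 1, -1, -1, -1, 1, 1, 0, -1, 1, -1, 1, 1, 1, -1, -1, 1, 1],
  [0, 1, -1, 1, 0, 1, 1, 1, 1, 0, 0, 0, 0, -1, 0, -1, 0, -1, 0, -1, -1, -1, 0, 0, 0, 0, -1, 0, -1, 1, -1, -1, 0, -1, 1, 0, 1, -1, 0, 1, -1, 1, 1],
  [1, 1, -1, 1, 1, 1, 0, 1, -1, 1, -1, 1, 0, 1, 0, 1, 0, -1, 0, 1, 0, 1, -1, 0, 0, 0, 1, 1, 0, 1, 1, 0, -1, 1, 1, 1, -1, -1, 1, 0, 1, 1, -1, -1, 1, 1],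
  [0, -1, 0, 1, -1, 1, -1, 0, 1, -1, -1, 0, 0, -1, 0, -1, -1, 0, -1, 0, 1, -1, -1, 0, 1, -1, 0, -1, 1, 1, 1, 0, 0, 0, 0, 1, 0, 1, -1, 1, 1, 1, -1, -1, 1, 1],
  [-1, 0, -1, 1, 0, -1, 0, 0, 1, 0, 0, 1, 1, -1, 1, -1, 0, -1, 1, 0, 1, -1, -1, -1, 0, -1, 0, 1, -1, -1, -1, 0, -1, 0, -1, -1, 1, 1, -1, 1, 1, 1, -1, -1, 1, 1],
  [0, -1, -1, -1, -1, 1, -1, -1, -1, -1, 1, 1, 0, 0, 1, 0, 1, -1, -1, 0, 1, 0, 1, -1, 1, 1, -1, 0, -1, 0, 1, -1, 1, 0, 1, 1, -1, -1, 1, 1],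
  [-1, 0, -1, 1, -1, 1, 0, -1, -1, -1, -1, 0, 0, -1, -1, -1, 1, 1, 0, 0, -1, 0, -1, 0, -1, 1, 0, -1, 1, 0, 0, 0, -1, 0, -1, -1, 1, 1, -1, 1, 1, 1, -1, -1, 1, 1],
  [0, 1, -1, 1, 0, 0, 1, 0, -1, 0, 1, 1, -1, -1, 1, 1, -1, 1, 1, -1, 1, 0, 1, -1, 1, 1, 0, -1, 1, 0, 1, -1, 0, 0, 0, 0, 1, -1, -1, 0, -1, 0, 1, -1, 1, 1],
  [-1, 1, -1, 1, 0, 0, 1, 1, 1, 0, -1, -1, -1, 1, 1, -1, 0, 1, -1, -1, 1, 0, 1, -1, 0, -1, 0, 1, -1, 1, 0, 1, 0, 1, -1, 0, -1, 1, 0, -1, 1, -1, -1],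
  [0, -1, 1, 1, 0, 1, 1, -1, 1, 0, 1, 1, 1, 1, 0, 0, 1, -1, 1, 0, -1, 0, -1, -1, -1, 0, -1, -1, 0, 1, 1, 0, -1, -1, 0, 0, 0, 0, 0, -1, 1, 1, -1, -1, 1, 1],
  [-1, 0, 0, 1, -1, -1, 1, -1, 1, -1, 0, -1, -1, 0, -1, 1, 1, 0, 0, 0, 0, -1, 1, 1, 0, 1, -1, 1, 1, 1, 0, 1, 0, -1, 1, -1, -1],
  [1, -1, -1, 1, -1, -1, 0, -1, -1, 1, 1, 1, 0, 0, 0, -1, -1, 0, 1, -1, 1, 1, 0, 0, 1, -1, -1, 1, 1, 1, 1, 0, 1, 0, 1, -1, 0, -1, -1, 1, 1, -1, -1],
  [0, -1, 1, 1, -1, 1, -1, -1, 0, 0, 0, 1, 1, 1, -1, 1, 1, 0, -1, -1, -1, 1, 1, -1, -1, 0, -1, 0, -1, 1, -1, -1, 0, -1, 1, -1, 0, -1, -1, -1, 0, 1, 0, 1, -1, -1],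
  [-1, 0, -1, -1, 1, 0, -1, -1, -1, 1, 1, -1, 1, 1, 0, 0, 0, -1, 0, 1, 0, -1, 1, -1, 0, -1, 1, -1, -1, 1, 1, 0, -1, 0, -1, -1, 0, -1, 0, 0, 0, -1, 0, -1, 1, 1],
  [-1, -1, 0, -1, 0, 1, -1, 1, 0, 0, 0, 0, -1, -1, 1, 1, 1, -1, -1, 0, 0, -1, 1, 1, 0, 1, -1, 1, 1, 1, 0, 1, -1, 1, 1, 1, 0, 1, 0, -1, 1, -1, -1],
  [1, 1, -1, 0, 1, -1, 1, 0, -1, 1, 0, 1, -1, 1, 0, -1, 0, -1, 0, 0, 1, 0, 1, -1, 1, 1, 1, 0, 1, 1, 0, 1, -1, 0, -1, 1, 1, 0, 0, 1, -1, -1, 1, 1, -1, -1]]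

def u12 : List ℤ := [1, 0, 0, -1, 0, 1, 0, 1, 1, -1, 0, -1, 1, -1, 1, 0, 1, 1, 0, 1, -1]

def w12 : List ℤ := [0, 1, 0, -1, 1, 1, 1, 0, 0, 1, 0, -1, 1, 0, -1, 0, 1, 1, 1, 1]

def u8 : List ℤ := [0, 0, 0, 0, 1, -1, 1, -1, -1, 1, 1, 1, 1, 0, 1, 0, 1, -1, -1, 1, 1, 0, 1]

def w8 : List ℤ := [-1, 0, 1, 0, 0, 0, -1, 0, 0, 0, -1, -1, -1, 0, 1, -1, 1, -1, 0, -1, 1, -1]

/-! ### Lists -/

section Lists

variable {K : Type*} [CommRing K]

/-- evaluation of a list of integer coefficients -/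
def evL : List ℤ → K → K
  | [], _ => 0
  | a :: l, x => (a : K) + x * evL l x

/-- sum -/
def addL : List ℤ → List ℤ → List ℤ
  | [], l => l
  | a :: l, [] => a :: l
  | a :: l, b :: m => (a + b) :: addL l m

/-- scalar multiple -/
def smulL (c : ℤ) : List ℤ → List ℤ
  | [] => []
  | a :: l => c * a :: smulL c l

/-- product -/
def mulL : List ℤ → List ℤ → List ℤ
  | [], _ => []
  | a :: l, m => addL (smulL a m) (0 :: mulL l m)

/-- substitution of the cube -/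
def ex3 : List ℤ → List ℤ
  | [] => []
  | a :: l => a :: 0 :: 0 :: ex3 l

/-- all coefficients are divisible by `3` -/
def z3 : List ℤ → Bool
  | [] => true
  | a :: l => (a % 3 == 0) && z3 l

theorem ev_addL (l m : List ℤ) (x : K) : evL (addL l m) x = evL l x + evL m x := by
  induction l generalizing m with
  | nil => simp [addL, evL]
  | cons a l ih =>
    cases m with
    | nil => simp [addL, evL]
    | cons b m =>
      simp only [addL, evL, ih]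
      push_cast
      ring

theorem ev_smulL (c : ℤ) (l : List ℤ) (x : K) : evL (smulL c l) x = c * evL l x := by
  induction l with
  | nil => simp [smulL, evL]
  | cons a l ih =>
    simp only [smulL, evL, ih]
    push_cast
    ring

theorem ev_mulL (l m : List ℤ) (x : K) : evL (mulL l m) x = evL l x * evL m x := by
  induction l with
  | nil => simp [mulL, evL]
  | cons a l ih =>
    simp only [mulL, evL, ev_addL, ev_smulL, ih]
    push_cast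
    ring

theorem ev_ex3 (l : List ℤ) (x : K) : evL (ex3 l) x = evL l (x ^ 3) := by
  induction l with
  | nil => simp [ex3, evL]
  | cons a l ih =>
    simp only [ex3, evL, ih]
    push_cast
    ring

theorem ev_z3 [CharP K 3] (l : List ℤ) (h : z3 l = true) (x : K) : evL l x = 0 := by
  induction l with
  | nil => simp [evL]
  | cons a l ih =>
    simp only [z3, Bool.and_eq_true, beq_iff_eq] at h
    have h1 : (a : K) = 0 := by
      have : (3 : ℤ) ∣ a := Int.dvd_of_emod_eq_zero h.1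
      exact (CharP.intCast_eq_zero_iff K 3 a).2 (by exact_mod_cast this)
    simp only [evL, h1, ih h.2]
    ring

theorem ev_cube [CharP K 3] (l : List ℤ) (x : K) : evL l (x ^ 3) = (evL l x) ^ 3 := by
  have : Fact (Nat.Prime 3) := ⟨Nat.prime_three⟩
  induction l with
  | nil => simp [evL]
  | cons a l ih =>
    simp only [evL]
    rw [add_pow_char (R := K) (p := 3), mul_pow, ih]
    congr 1
    have h0 : (((a ^ 3 - a : ℤ)) : K) = 0 := by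
      refine (CharP.intCast_eq_zero_iff K 3 _).2 ?_
      have : (a ^ 3 - a) % 3 = 0 := by
        have h3 : a % 3 = 0 ∨ a % 3 = 1 ∨ a % 3 = 2 := by omega
        rcases h3 with h3 | h3 | h3 <;> simp [Int.sub_emod, pow_succ, Int.mul_emod, h3]
      exact_mod_cast Int.dvd_of_emod_eq_zero this
    push_cast at h0
    exact (sub_eq_zero.1 h0).symm

theorem sum_evL (l : List ℤ) (x : K) :
    ∑ i ∈ Finset.range l.length, (l.getD i 0 : K) * x ^ i = evL l x := by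
  induction l with
  | nil => simp [evL]
  | cons a l ih =>
    rw [List.length_cons, Finset.sum_range_succ']
    simp only [List.getD_cons_succ, List.getD_cons_zero, pow_zero, mul_one, evL]
    rw [← ih, Finset.mul_sum, add_comm]
    congr 1
    refine Finset.sum_congr rfl fun i _ => ?_
    ring

end Lists

/-! ### The checks -/

theorem chk_steps : (List.range 24).all (fun i =>
    z3 (addL (smulL (-1) (ex3 (HH.getD i []))) (addL (HH.getD (i + 1) [])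
      (mulL (QQ.getD i []) cf7)))) = true := by decide +kernel

theorem chk12 : z3 (addL [-1] (addL (mulL u12 (addL (HH.getD 12 []) [0, -1]))
    (mulL w12 cf7))) = true := by decide +kernel

theorem chk8 : z3 (addL [-1] (addL (mulL u8 (addL (HH.getD 8 []) [0, -1]))
    (mulL w8 cf7))) = true := by decide +kernel

theorem chk0 : HH.getD 0 [] = [0, 1] := by decide +kernel

theorem chk24 : HH.getD 24 [] = [0, 1] := by decide +kernel

section Field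

variable {K : Type*} [Field K] [CharP K 3] (a : K) (ha : evL cf7 a = 0)

include ha

theorem ev_HH (i : ℕ) (hi : i ≤ 24) : evL (HH.getD i []) a = a ^ (3 ^ i) := by
  induction i with
  | zero =>
    rw [chk0]
    simp [evL]
  | succ i ih =>
    have h1 := List.all_eq_true.1 chk_steps i (List.mem_range.2 (by omega))
    have h2 := ev_z3 _ h1 a
    rw [ev_addL, ev_addL, ev_smulL, ev_mulL, ev_ex3, ha, ev_cube, ih (by omega)] at h2
    have h3 : evL (HH.getD (i + 1) []) a = (a ^ 3 ^ i) ^ 3 := by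
      push_cast at h2
      linear_combination h2
    rw [h3, ← pow_mul, pow_succ]

theorem pow24 : a ^ 3 ^ 24 = a := by
  rw [← ev_HH a ha 24 le_rfl, chk24]
  simp [evL]

theorem pow12 : a ^ 3 ^ 12 ≠ a := by
  intro h
  have h2 := ev_z3 _ chk12 a
  rw [ev_addL, ev_addL, ev_mulL, ev_mulL, ev_addL, ha, ev_HH a ha 12 (by norm_num), h] at h2
  simp [evL] at h2

theorem pow8 : a ^ 3 ^ 8 ≠ a := by
  intro h
  have h2 := ev_z3 _ chk8 a
  rw [ev_addL, ev_addL, ev_mulL, ev_mulL, ev_addL, ha, ev_HH a ha 8 (by norm_num), h] at h2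
  simp [evL] at h2

omit [CharP K 3] ha in
theorem iter (n : ℕ) : (fun x : K => x ^ 3)^[n] a = a ^ 3 ^ n := by
  induction n with
  | zero => simp
  | succ n ih =>
    rw [Function.iterate_succ_apply', ih, ← pow_mul, pow_succ]

theorem no_small (d : ℕ) (h1 : 1 ≤ d) (h12 : d ≤ 12) : a ^ 3 ^ d ≠ a := by
  intro h
  have p1 : Function.IsPeriodicPt (fun x : K => x ^ 3) d a := by
    unfold Function.IsPeriodicPt Function.IsFixedPt
    rw [iter, h]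
  have p2 : Function.IsPeriodicPt (fun x : K => x ^ 3) 24 a := by
    unfold Function.IsPeriodicPt Function.IsFixedPt
    rw [iter, pow24 a ha]
  have p3 := p1.gcd p2
  have hg : d.gcd 24 ∣ 12 ∨ d.gcd 24 ∣ 8 := by
    interval_cases d <;> decide
  rcases hg with hg | hg
  · have p4 := p3.trans_dvd hg
    unfold Function.IsPeriodicPt Function.IsFixedPt at p4
    rw [iter] at p4
    exact pow12 a ha p4
  · have p4 := p3.trans_dvd hg
    unfold Function.IsPeriodicPt Function.IsFixedPt at p4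
    rw [iter] at p4
    exact pow8 a ha p4

end Field

/-! ### Irreducibility modulo `3` -/

theorem Psi7_coeff (n : ℕ) : Psi7.coeff n = if n < 25 then cf7.getD n 0 else 0 := by
  unfold Psi7
  rw [finsetSum_coeff]
  simp only [coeff_C_mul, coeff_X_pow, mul_ite, mul_one, mul_zero]
  rw [Finset.sum_ite_eq]
  simp

theorem Psi7_natDegree : Psi7.natDegree = 24 := by
  refine natDegree_eq_of_le_of_coeff_ne_zero ?_ ?_
  · rw [natDegree_le_iff_coeff_eq_zero]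
    intro N hN
    rw [Psi7_coeff, if_neg (by omega)]
  · rw [Psi7_coeff, if_pos (by norm_num)]
    decide +kernel

theorem Psi7_lc : Psi7.leadingCoeff = 7 := by
  rw [leadingCoeff, Psi7_natDegree, Psi7_coeff, if_pos (by norm_num)]
  decide +kernel

theorem Psi7_aeval {K : Type*} [Field K] [Algebra (ZMod 3) K] (a : K) :
    aeval a (Psi7.map (Int.castRingHom (ZMod 3))) = evL cf7 a := by
  rw [← sum_evL]
  unfold Psi7
  rw [Polynomial.map_sum, map_sum]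
  refine Finset.sum_congr rfl fun i _ => ?_
  simp

theorem irr3 : Irreducible (Psi7.map (Int.castRingHom (ZMod 3))) := by
  have : Fact (Nat.Prime 3) := ⟨Nat.prime_three⟩
  have hlc : (Int.castRingHom (ZMod 3)) Psi7.leadingCoeff ≠ 0 := by
    rw [Psi7_lc, show (Int.castRingHom (ZMod 3)) 7 = (1 : ZMod 3) from rfl]
    exact one_ne_zero
  have hdeg : (Psi7.map (Int.castRingHom (ZMod 3))).natDegree = 24 := by
    rw [natDegree_map_of_leadingCoeff_ne_zero _ hlc, Psi7_natDegree]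
  have hmon : (Psi7.map (Int.castRingHom (ZMod 3))).Monic := by
    rw [Monic, leadingCoeff_map_of_leadingCoeff_ne_zero _ hlc, Psi7_lc]
    rfl
  have hne : Psi7.map (Int.castRingHom (ZMod 3)) ≠ 1 := by
    intro h
    rw [h] at hdeg
    simp at hdeg
  rw [hmon.irreducible_iff_lt_natDegree_lt hne]
  intro q hq hqd hdvd
  rw [hdeg, Finset.mem_Ioc] at hqd
  obtain ⟨g, hg, hgq⟩ := Polynomial.exists_irreducible_of_natDegree_ne_zero (f := q) (by omega)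
  have hgd : g.natDegree ≤ 12 := le_trans (natDegree_le_of_dvd hgq hq.ne_zero) (by omega)
  have hg1 : 1 ≤ g.natDegree := hg.natDegree_pos
  have : Fact (Irreducible g) := ⟨hg⟩
  have : Module.Finite (ZMod 3) (AdjoinRoot g) :=
    Module.Finite.of_basis (AdjoinRoot.powerBasis hg.ne_zero).basis
  have : Finite (AdjoinRoot g) := Module.finite_of_finite (ZMod 3)
  let : Fintype (AdjoinRoot g) := Fintype.ofFinite _
  have : CharP (AdjoinRoot g) 3 := charP_of_injective_algebraMap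
    (algebraMap (ZMod 3) (AdjoinRoot g)).injective 3
  have hcard : Fintype.card (AdjoinRoot g) = 3 ^ g.natDegree := by
    have h1 := Module.card_eq_pow_finrank (K := ZMod 3) (V := AdjoinRoot g)
    rw [h1, ZMod.card, (AdjoinRoot.powerBasis hg.ne_zero).finrank, AdjoinRoot.powerBasis_dim]
  have hroot : evL cf7 (AdjoinRoot.root g) = 0 := by
    rw [← Psi7_aeval]
    obtain ⟨r, hr⟩ := hgq.trans hdvd
    rw [hr, map_mul]
    simp
  refine no_small (AdjoinRoot.root g) hroot g.natDegree hg1 hgd ?_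
  rw [← hcard]
  exact FiniteField.pow_card _

/-- taken from `Pool.Agent.W130.HL.Irr` -/
theorem irr_of_mod (p : ℕ) [Fact p.Prime] (q : ℤ[X])
    (hlc : ((q.leadingCoeff : ℤ) : ZMod p) ≠ 0)
    (h : Irreducible (q.map (Int.castRingHom (ZMod p)))) :
    Irreducible (q.map (Int.castRingHom ℚ)) := by
  have hq0 : q ≠ 0 := by
    rintro rfl
    simp at hlc
  set r := q.primPart with hr
  have hqr : q = C q.content * r := q.eq_C_content_mul_primPart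
  have hrprim : r.IsPrimitive := q.isPrimitive_primPart
  have hcont : q.content ≠ 0 := by
    rw [Ne, Polynomial.content_eq_zero_iff]; exact hq0
  have hlc2 : q.leadingCoeff = q.content * r.leadingCoeff := by
    conv_lhs => rw [hqr]
    rw [leadingCoeff_mul, leadingCoeff_C]
  have hc0 : ((q.content : ℤ) : ZMod p) ≠ 0 := by
    intro h0
    apply hlc
    rw [hlc2]; push_cast; rw [h0, zero_mul]
  have hl0 : ((r.leadingCoeff : ℤ) : ZMod p) ≠ 0 := by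
    intro h0
    apply hlc
    rw [hlc2]; push_cast; rw [h0, mul_zero]
  have hirr : Irreducible (r.map (Int.castRingHom (ZMod p))) := by
    have h1 : q.map (Int.castRingHom (ZMod p)) =
        C ((q.content : ℤ) : ZMod p) * r.map (Int.castRingHom (ZMod p)) := by
      conv_lhs => rw [hqr]
      rw [Polynomial.map_mul, Polynomial.map_C]
      rfl
    rw [h1] at h
    exact (irreducible_isUnit_mul (isUnit_C.mpr (isUnit_iff_ne_zero.mpr hc0))).mp h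
  have hrZ : Irreducible r := by
    constructor
    · intro hu
      apply hirr.not_isUnit
      exact hu.map (Polynomial.mapRingHom (Int.castRingHom (ZMod p)))
    · intro f g hfg
      have hlfg : r.leadingCoeff = f.leadingCoeff * g.leadingCoeff := by
        rw [hfg, leadingCoeff_mul]
      have hf0 : ((f.leadingCoeff : ℤ) : ZMod p) ≠ 0 := by
        intro h0; apply hl0; rw [hlfg]; push_cast; rw [h0, zero_mul]
      have hg0 : ((g.leadingCoeff : ℤ) : ZMod p) ≠ 0 := by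
        intro h0; apply hl0; rw [hlfg]; push_cast; rw [h0, mul_zero]
      have hmap : r.map (Int.castRingHom (ZMod p)) =
          f.map (Int.castRingHom (ZMod p)) * g.map (Int.castRingHom (ZMod p)) := by
        rw [hfg, Polynomial.map_mul]
      have key : ∀ f : ℤ[X], f ∣ r → ((f.leadingCoeff : ℤ) : ZMod p) ≠ 0 →
          IsUnit (f.map (Int.castRingHom (ZMod p))) → IsUnit f := by
        intro f hfr hf hu
        have h1 : (f.map (Int.castRingHom (ZMod p))).natDegree = f.natDegree :=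
          natDegree_map_of_leadingCoeff_ne_zero _ hf
        have h2 := natDegree_eq_zero_of_isUnit hu
        rw [h1] at h2
        obtain ⟨c, hc⟩ := natDegree_eq_zero.mp h2
        rw [← hc]
        rw [← hc] at hfr
        exact isUnit_C.mpr (hrprim c hfr)
      rcases hirr.isUnit_or_isUnit hmap with hu | hu
      · left; exact key f ⟨g, hfg⟩ hf0 hu
      · right; exact key g ⟨f, by rw [hfg, mul_comm]⟩ hg0 hu
  have hrQ := (IsPrimitive.Int.irreducible_iff_irreducible_map_cast hrprim).mp hrZ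
  have h2 : q.map (Int.castRingHom ℚ) = C ((q.content : ℤ) : ℚ) * r.map (Int.castRingHom ℚ) := by
    conv_lhs => rw [hqr]
    rw [Polynomial.map_mul, Polynomial.map_C]
    rfl
  rw [h2]
  exact (irreducible_isUnit_mul (isUnit_C.mpr (isUnit_iff_ne_zero.mpr
    (by exact_mod_cast hcont)))).mpr hrQ

theorem s_irr : S_IRR := by
  have : Fact (Nat.Prime 3) := ⟨Nat.prime_three⟩
  refine irr_of_mod 3 Psi7 ?_ irr3
  rw [Psi7_lc, show ((7 : ℤ) : ZMod 3) = (1 : ZMod 3) from rfl]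
  exact one_ne_zero

end Pool.Agent.W509.KE
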