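import Pool.Agent.W97.KE.Stm

/-!
# Project KE: the Fermat quotient
-/

set_option autoImplicit false

namespace Pool.Agent.W509.KE

open Pool.Agent.W97.KE

section Lam

variable (p : ℕ) [hp : Fact p.Prime]

/-- the lift of `u ^ (p - 1)` -/
def ww (u : (ZMod (p ^ 2))ˣ) : ℕ := ((u ^ (p - 1) : (ZMod (p ^ 2))ˣ) : ZMod (p ^ 2)).val

theorem ww_lt (u : (ZMod (p ^ 2))ˣ) : ww p u < p ^ 2 := by
  have : NeZero (p ^ 2) := ⟨pow_ne_zero 2 hp.out.ne_zero⟩
  exact ZMod.val_lt _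

theorem ww_cast (u : (ZMod (p ^ 2))ˣ) :
    ((ww p u : ℕ) : ZMod (p ^ 2)) = (u : ZMod (p ^ 2)) ^ (p - 1) := by
  have : NeZero (p ^ 2) := ⟨pow_ne_zero 2 hp.out.ne_zero⟩
  unfold ww
  rw [ZMod.natCast_zmod_val, Units.val_pow_eq_pow_val]

theorem ww_mod (u : (ZMod (p ^ 2))ˣ) : ww p u % p = 1 := by
  have h1 : ((ww p u : ℕ) : ZMod p) = 1 := by
    have h2 := congrArg (ZMod.castHom (dvd_pow_self p two_ne_zero) (ZMod p)) (ww_cast p u)
    rw [map_natCast, map_pow] at h2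
    rw [h2]
    have h3 := ZMod.units_pow_card_sub_one_eq_one p
      (Units.map (ZMod.castHom (dvd_pow_self p two_ne_zero) (ZMod p)).toMonoidHom u)
    have h4 := congrArg (fun x : (ZMod p)ˣ => (x : ZMod p)) h3
    simpa using h4
  have h5 : ((ww p u : ℕ) : ZMod p) = ((1 : ℕ) : ZMod p) := by
    rw [h1]
    simp
  rw [ZMod.natCast_eq_natCast_iff'] at h5
  rw [h5, Nat.mod_eq_of_lt hp.out.one_lt]

theorem ww_eq (u : (ZMod (p ^ 2))ˣ) : ww p u = 1 + p * (ww p u / p) := by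
  have h1 := Nat.div_add_mod (ww p u) p
  rw [ww_mod] at h1
  omega

/-- the Fermat quotient -/
def lamq (u : (ZMod (p ^ 2))ˣ) : ZMod p := ((ww p u / p : ℕ) : ZMod p)

theorem lamq_mul (u v : (ZMod (p ^ 2))ˣ) : lamq p (u * v) = lamq p u + lamq p v := by
  have h1 := ww_eq p u
  have h2 := ww_eq p v
  have h3 := ww_eq p (u * v)
  have h4 : ((ww p (u * v) : ℕ) : ZMod (p ^ 2)) = ((ww p u * ww p v : ℕ) : ZMod (p ^ 2)) := by
    rw [Nat.cast_mul, ww_cast, ww_cast, ww_cast, Units.val_mul, mul_pow]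
  unfold lamq
  generalize ww p u / p = a at *
  generalize ww p v / p = b at *
  generalize ww p (u * v) / p = c at *
  rw [h1, h2, h3] at h4
  have h5 : (((1 + p * c - (1 + p * a) * (1 + p * b) : ℤ)) : ZMod (p ^ 2)) = 0 := by
    push_cast
    push_cast at h4
    rw [h4]
    ring
  rw [ZMod.intCast_zmod_eq_zero_iff_dvd] at h5
  obtain ⟨d, hd⟩ := h5
  push_cast at hd
  have hp0 : (p : ℤ) ≠ 0 := by exact_mod_cast hp.out.ne_zero
  have h6 : (c : ℤ) - (a + b) = p * (d + a * b) := by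
    have : (p : ℤ) * (c - (a + b)) = p * (p * (d + a * b)) := by
      linear_combination hd
    exact mul_left_cancel₀ hp0 this
  have h7 : (((c : ℤ) - (a + b) : ℤ) : ZMod p) = 0 := by
    rw [h6]
    simp
  push_cast at h7
  exact sub_eq_zero.1 h7

theorem lamq_zero (u : (ZMod (p ^ 2))ˣ) : lamq p u = 0 ↔ u ^ (p - 1) = 1 := by
  have h1 := ww_eq p u
  have hlt := ww_lt p u
  have : Fact (1 < p ^ 2) := ⟨one_lt_pow₀ hp.out.one_lt two_ne_zero⟩
  constructor
  · intro h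
    unfold lamq at h
    rw [ZMod.natCast_eq_zero_iff] at h
    have h2 : ww p u / p < p := by
      rw [Nat.div_lt_iff_lt_mul hp.out.pos]
      nlinarith
    have h3 := Nat.eq_zero_of_dvd_of_lt h h2
    rw [h3, mul_zero, add_zero] at h1
    apply Units.ext
    rw [Units.val_pow_eq_pow_val, ← ww_cast, h1]
    simp
  · intro h
    have h2 : ww p u = 1 := by
      unfold ww
      rw [h, Units.val_one, ZMod.val_one]
    unfold lamq
    rw [h2, Nat.div_eq_of_lt hp.out.one_lt]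
    simp

end Lam

theorem s_lam : S_LAM := by
  intro p hp hp2
  have : Fact p.Prime := ⟨hp⟩
  have hN : 1 * p ^ (1 + 1) = p ^ 2 := by ring
  rw [hN]
  refine ⟨lamq p, lamq_mul p, lamq_zero p, fun u => ⟨u ^ p, ?_, ?_⟩⟩
  · rw [lamq_zero, ← pow_mul]
    have h1 := ZMod.pow_totient u
    rw [Nat.totient_prime_pow hp (by norm_num)] at h1
    simpa using h1
  · intro z g h hg hh hz
    have hzN : z ^ (p ^ 2) = 1 := by
      rw [pow_two, pow_mul, hz, one_pow]
    rw [hg z hzN, hh z hzN]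
    rw [pow_eq_pow_mod _ hz, pow_eq_pow_mod ((_ : ZMod (p ^ 2)).val) hz]
    congr 1
    have : NeZero (p ^ 2) := ⟨pow_ne_zero 2 hp.ne_zero⟩
    rw [← Nat.ModEq, ← ZMod.natCast_eq_natCast_iff]
    have key : ∀ w : ZMod (p ^ 2), ((w.val : ℕ) : ZMod p) =
        ZMod.castHom (dvd_pow_self p two_ne_zero) (ZMod p) w := by
      intro w
      conv_rhs => rw [← ZMod.natCast_zmod_val w]
      rw [map_natCast]
    rw [key, key, Units.val_pow_eq_pow_val, map_pow, ZMod.pow_card]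

end Pool.Agent.W509.KE
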